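import Pool.Agent.GT.StmtsC

/-!
Row C_BET of table `gt` (MP_ba5221_nt): Möbius inversion.
-/

open Finset

namespace Pool.Agent.GT.H87

open Pool.Agent.GT

variable {σ : Type} [DecidableEq σ]

/-- the inner sum -/
theorem bet_inner (x : ℝ) {T V : Finset σ} (hV : V ⊆ T) :
    ∑ U ∈ T.powerset.filter (fun U => V ⊆ U), (-x) ^ (U \ V).card * x ^ (T \ U).card =
      if V = T then 1 else 0 := by
  have h1 : ∑ U ∈ T.powerset.filter (fun U => V ⊆ U), (-x) ^ (U \ V).card * x ^ (T \ U).card =
      ∑ W ∈ (T \ V).powerset, (-x) ^ W.card * x ^ ((T \ V).card - W.card) := by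
    refine Finset.sum_nbij' (fun U => U \ V) (fun W => V ∪ W) ?_ ?_ ?_ ?_ ?_
    · intro U hU
      rw [Finset.mem_filter, Finset.mem_powerset] at hU
      exact Finset.mem_powerset.2 (Finset.sdiff_subset_sdiff hU.1 (Finset.Subset.refl _))
    · intro W hW
      rw [Finset.mem_powerset] at hW
      rw [Finset.mem_filter, Finset.mem_powerset]
      exact ⟨Finset.union_subset hV (hW.trans Finset.sdiff_subset), Finset.subset_union_left⟩
    · intro U hU
      rw [Finset.mem_filter] at hU
      exact Finset.union_sdiff_of_subset hU.2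
    · intro W hW
      rw [Finset.mem_powerset] at hW
      have hd : Disjoint W V := by
        rw [Finset.disjoint_left]
        intro a ha hb
        exact (Finset.mem_sdiff.1 (hW ha)).2 hb
      rw [Finset.union_sdiff_left]
      exact hd.sdiff_eq_left
    · intro U hU
      rw [Finset.mem_filter, Finset.mem_powerset] at hU
      have h2 : T \ U = (T \ V) \ (U \ V) := by
        ext a
        simp only [Finset.mem_sdiff]
        constructor
        · rintro ⟨h3, h4⟩
          exact ⟨⟨h3, fun h5 => h4 (hU.2 h5)⟩, fun h5 => h4 h5.1⟩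
        · rintro ⟨⟨h3, h4⟩, h5⟩
          exact ⟨h3, fun h6 => h5 ⟨h6, h4⟩⟩
      rw [h2, Finset.card_sdiff_of_subset (Finset.sdiff_subset_sdiff hU.1 (Finset.Subset.refl _))]
  rw [h1, Finset.sum_pow_mul_eq_add_pow, neg_add_cancel]
  by_cases h : V = T
  · rw [if_pos h, h]
    simp
  · rw [if_neg h, zero_pow]
    intro h2
    apply h
    exact Finset.Subset.antisymm hV (Finset.sdiff_eq_empty_iff_subset.1 (Finset.card_eq_zero.1 h2))

theorem bet_inv (x : ℝ) (α : Finset σ → ℝ) (T : Finset σ) :
    ∑ U ∈ T.powerset, (∑ V ∈ U.powerset, (-x) ^ (U \ V).card * α V) * x ^ (T \ U).card = α T := by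
  calc ∑ U ∈ T.powerset, (∑ V ∈ U.powerset, (-x) ^ (U \ V).card * α V) * x ^ (T \ U).card
      = ∑ U ∈ T.powerset, ∑ V ∈ U.powerset,
          α V * ((-x) ^ (U \ V).card * x ^ (T \ U).card) := by
        refine Finset.sum_congr rfl fun U _ => ?_
        rw [Finset.sum_mul]
        refine Finset.sum_congr rfl fun V _ => ?_
        ring
    _ = ∑ V ∈ T.powerset, ∑ U ∈ T.powerset.filter (fun U => V ⊆ U),
          α V * ((-x) ^ (U \ V).card * x ^ (T \ U).card) := by
        refine Finset.sum_comm' fun U V => ?_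
        simp only [Finset.mem_powerset, Finset.mem_filter]
        constructor
        · rintro ⟨h1, h2⟩
          exact ⟨⟨h1, h2⟩, h2.trans h1⟩
        · rintro ⟨⟨h1, h2⟩, -⟩
          exact ⟨h1, h2⟩
    _ = ∑ V ∈ T.powerset, α V * (if V = T then 1 else 0) := by
        refine Finset.sum_congr rfl fun V hV => ?_
        rw [← Finset.mul_sum, bet_inner x (Finset.mem_powerset.1 hV)]
    _ = α T := by
        rw [Finset.sum_eq_single T]
        · simp
        · intro V _ hV
          rw [if_neg hV, mul_zero]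
        · intro h
          exact absurd (Finset.mem_powerset_self T) h

theorem c_bet : BetStmt := by
  intro σ _ _ p α hp h0 h1 h2
  have hp' : (2 : ℝ) ≤ p := by exact_mod_cast hp
  have hp0 : (0 : ℝ) < p := by linarith only [hp']
  obtain ⟨x, hx⟩ : ∃ x : ℝ, x = 1 / (p : ℝ) := ⟨_, rfl⟩
  have hx0 : 0 < x := by rw [hx]; exact one_div_pos.2 hp0
  have hx1 : x ≤ 1 := by
    rw [hx, div_le_one hp0]
    linarith only [hp']
  have hx2 : 1 / (p : ℝ) ^ 2 = x ^ 2 := by rw [hx, one_div_pow]
  rw [← hx] at h1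
  rw [← hx]
  simp only [hx2] at h2
  refine ⟨fun U => ∑ V ∈ U.powerset, (-x) ^ (U \ V).card * α V, ?_, ?_, ?_, ?_⟩
  · simp [h0]
  · intro U hU
    obtain ⟨s, rfl⟩ := Finset.card_eq_one.1 hU
    have hps : ({s} : Finset σ).powerset = {∅, {s}} := by
      ext V
      rw [Finset.mem_powerset, Finset.subset_singleton_iff]
      simp
    change ∑ V ∈ ({s} : Finset σ).powerset, (-x) ^ (({s} : Finset σ) \ V).card * α V = 0
    rw [hps, Finset.sum_pair (Finset.singleton_ne_empty s).symm, h0, h1 s]
    simp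
  · intro U hU
    have hterm : ∀ V ∈ U.powerset, |(-x) ^ (U \ V).card * α V| ≤ x ^ 2 := by
      intro V hV
      have hVU := Finset.mem_powerset.1 hV
      have hc : (U \ V).card = U.card - V.card := Finset.card_sdiff_of_subset hVU
      have hle := Finset.card_le_card hVU
      rw [abs_mul, abs_pow, abs_neg, abs_of_pos hx0]
      rcases Nat.lt_or_ge V.card 2 with hlt | hge
      · have hcase : V.card = 0 ∨ V.card = 1 := by omega
        rcases hcase with h | h
        · rw [Finset.card_eq_zero.1 h, h0, abs_one, mul_one, Finset.sdiff_empty]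
          exact pow_le_pow_of_le_one hx0.le hx1 hU
        · obtain ⟨s, rfl⟩ := Finset.card_eq_one.1 h
          rw [h1 s, abs_of_pos hx0, sq]
          refine mul_le_mul_of_nonneg_right ?_ hx0.le
          refine (pow_le_pow_of_le_one hx0.le hx1 (?_ : 1 ≤ _)).trans (le_of_eq (pow_one x))
          rw [hc, Finset.card_singleton]
          omega
      · obtain ⟨h3, h4⟩ := h2 V hge
        rw [abs_of_nonneg h3]
        calc x ^ (U \ V).card * α V ≤ 1 * x ^ 2 :=
              mul_le_mul (pow_le_one₀ hx0.le hx1) h4 h3 zero_le_one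
          _ = x ^ 2 := one_mul _
    calc |∑ V ∈ U.powerset, (-x) ^ (U \ V).card * α V|
        ≤ ∑ V ∈ U.powerset, |(-x) ^ (U \ V).card * α V| := Finset.abs_sum_le_sum_abs _ _
      _ ≤ ∑ V ∈ U.powerset, x ^ 2 := Finset.sum_le_sum hterm
      _ = 2 ^ U.card / (p : ℝ) ^ 2 := by
          rw [Finset.sum_const, Finset.card_powerset, nsmul_eq_mul, ← hx2]
          push_cast
          ring
  · intro T
    exact (bet_inv x α T).symm

end Pool.Agent.GT.H87
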