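import Pool.Agent.GT.StmtsD

/-!
# Squad GT, row D_DFF: classes of the differences of the roots
-/

set_option autoImplicit false

namespace Pool.Agent.GT.D.H87

open Pool.Agent.GT.D

section

theorem adf_pow {f : ℤ → ZMod 2} (hf : Adf f) {x : ℤ} (hx : x ≠ 0) (n : ℕ) :
    f (x ^ n) = (n : ZMod 2) * f x := by
  induction n with
  | zero => rw [pow_zero, hf.one, Nat.cast_zero, zero_mul]
  | succ n ih =>
    rw [pow_succ, hf.mul _ _ (pow_ne_zero n hx) hx, ih, Nat.cast_add, Nat.cast_one, add_mul,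
      one_mul]

theorem adf_prod {ι : Type} {f : ℤ → ZMod 2} (hf : Adf f) (x : ι → ℤ) (hx : ∀ l, x l ≠ 0)
    (S : Finset ι) : f (∏ l ∈ S, x l) = ∑ l ∈ S, f (x l) := by
  classical
  induction S using Finset.induction_on with
  | empty => rw [Finset.prod_empty, Finset.sum_empty, hf.one]
  | insert a S ha ih =>
    rw [Finset.prod_insert ha, Finset.sum_insert ha,
      hf.mul _ _ (hx a) (Finset.prod_ne_zero_iff.2 fun l _ => hx l), ih]

variable {ι : Type} [Fintype ι] [DecidableEq ι] {a : Fin 3 → ℤ} {s : ℤ} {r : ℕ} {bl : ι → Fin 3}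
  {m st : ι → ℕ} {p : ι → ℕ} {h : ZMod 2}

/-- the coefficient -/
def cf (bl : ι → Fin 3) (m st : ι → ℕ) (i : Fin 3) (l : ι) : ZMod 2 :=
  (st l : ZMod 2) + if bl l = i then (m l : ZMod 2) else 0

theorem expand (hs : s ≠ 0) (hr : r ≠ 0) (ha : ∀ i, a i ≠ 0) (hp : ∀ l, p l ≠ 0)
    {f : ℤ → ZMod 2} (hf : Adf f) (i : Fin 3) :
    f (Kn s r st p * Bn a bl m p i) = f (2 * s * r * a i) + ∑ l, cf bl m st i l * f (p l) := by
  have hp' : ∀ l, (p l : ℤ) ≠ 0 := fun l => Int.natCast_ne_zero.2 (hp l)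
  have hr' : (r : ℤ) ≠ 0 := Int.natCast_ne_zero.2 hr
  have h2 : (2 * s * r : ℤ) ≠ 0 := mul_ne_zero (mul_ne_zero two_ne_zero hs) hr'
  have h3 : ∀ l, (p l : ℤ) ^ st l ≠ 0 := fun l => pow_ne_zero _ (hp' l)
  have h4 : ∀ l, (if bl l = i then (p l : ℤ) ^ m l else 1) ≠ 0 := by
    intro l
    split_ifs
    · exact pow_ne_zero _ (hp' l)
    · exact one_ne_zero
  have h5 : (∏ l, (p l : ℤ) ^ st l) ≠ 0 := Finset.prod_ne_zero_iff.2 fun l _ => h3 l
  have h6 : (∏ l, if bl l = i then (p l : ℤ) ^ m l else 1) ≠ 0 :=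
    Finset.prod_ne_zero_iff.2 fun l _ => h4 l
  have h7 : Kn s r st p * Bn a bl m p i = (2 * s * r * a i) *
      ((∏ l, (p l : ℤ) ^ st l) * ∏ l, if bl l = i then (p l : ℤ) ^ m l else 1) := by
    unfold Kn Bn
    ring
  rw [h7, hf.mul _ _ (mul_ne_zero h2 (ha i)) (mul_ne_zero h5 h6), hf.mul _ _ h5 h6,
    adf_prod hf _ h3, adf_prod hf _ h4, ← Finset.sum_add_distrib]
  congr 1
  refine Finset.sum_congr rfl fun l _ => ?_
  rw [adf_pow hf (hp' l)]
  unfold cf
  split_ifs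
  · rw [adf_pow hf (hp' l), add_mul]
  · rw [hf.one, add_zero, add_zero]

theorem not_dvd_s {q : ℕ} (hq : q.Prime) (hs : s = 1 ∨ s = -1) : ¬ (q : ℤ) ∣ s := by
  intro hd
  have h1 : (q : ℤ) ∣ 1 := by
    rcases hs with rfl | rfl
    · exact hd
    · exact (Int.dvd_neg).1 hd
  have h2 : q ∣ 1 := by exact_mod_cast h1
  exact hq.one_lt.ne' (Nat.dvd_one.1 h2)

theorem not_dvd_prime {q q' : ℕ} (hq : q.Prime) (hq' : q'.Prime) (hne : q ≠ q') :
    ¬ (q : ℤ) ∣ (q' : ℤ) := by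
  intro hd
  have h2 : q ∣ q' := by exact_mod_cast hd
  exact hne ((Nat.prime_dvd_prime_iff_eq hq hq').1 h2)

theorem prod_mod8 (x : ι → ℤ) (hx : ∀ l, x l % 8 = 1) (S : Finset ι) :
    (∏ l ∈ S, x l) % 8 = 1 := by
  refine Finset.prod_induction x (fun y => y % 8 = 1) ?_ (by norm_num) fun l _ => hx l
  intro y y' h1 h2
  rw [Int.mul_emod, h1, h2]
  norm_num

theorem pow_mod8 {x : ℤ} (hx : x % 8 = 1) (n : ℕ) : x ^ n % 8 = 1 := by
  induction n with
  | zero => norm_num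
  | succ n ih =>
    rw [pow_succ, Int.mul_emod, ih, hx]
    norm_num

theorem two_cast (x y : ZMod 2) : x + x = 0 ∧ (y + x = 0 → y = x) := by
  revert x y
  decide

theorem sum_cf (hN : New a r bl m st p h) (i : Fin 3) : ∑ l, cf bl m st i l = 0 := by
  obtain ⟨N, h1, h2⟩ := hN.deg
  have h3 : ∑ l, cf bl m st i l = ((N + ∑ l, st l : ℕ) : ZMod 2) := by
    rw [Nat.cast_add, ← h1 i, Nat.cast_sum, Nat.cast_sum]
    unfold cf
    rw [Finset.sum_add_distrib, add_comm]
    congr 1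
    refine Finset.sum_congr rfl fun l _ => ?_
    split_ifs
    · rfl
    · exact Nat.cast_zero.symm
  rw [h3]
  obtain ⟨k, hk⟩ := h2
  rw [hk, Nat.cast_add]
  exact (two_cast _ 0).1

theorem d_dff (ι : Type) [Fintype ι] [DecidableEq ι] (hadd : AddStmt) (hval : ValStmt) :
    DffStmt ι := by
  intro a s r bl m st p h hP
  obtain ⟨hA1, hA2, hA3, hA4, hA5⟩ := hadd
  obtain ⟨hV1, hV2, hV3, hV4, hV5, hV6, hV7, hV8, hV9, hV10⟩ := hval
  have hpp : ∀ l, (p l).Prime := hP.new.pr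
  have hp2 : ∀ l, p l ≠ 2 := by
    intro l h0
    have := hP.new.m8 l
    omega
  have hrp : r.Prime := hP.cho.pr
  have hs0 : s ≠ 0 := by
    rcases hP.cho.ss with h0 | h0 <;> rw [h0] <;> norm_num
  have hr0 : r ≠ 0 := hrp.ne_zero
  have ha0 : ∀ i, a i ≠ 0 := hP.old.ne
  have hp0 : ∀ l, p l ≠ 0 := fun l => (hpp l).ne_zero
  have hr' : (r : ℤ) ≠ 0 := Int.natCast_ne_zero.2 hr0
  have h2s : (2 * s : ℤ) ≠ 0 := mul_ne_zero two_ne_zero hs0
  have h2sr : (2 * s * r : ℤ) ≠ 0 := mul_ne_zero h2s hr'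
  have hm8 : ∀ l, (p l : ℤ) % 8 = 1 := by
    intro l
    have := hP.new.m8 l
    omega
  -- indivisibility of `2 * s * r * a i`
  have hnd : ∀ (q : ℕ) (i : Fin 3), q.Prime → q ≠ 2 → q ≠ r → ¬ (q : ℤ) ∣ 2 * s * r := by
    intro q i hq hq2 hqr hd
    have hqp : Prime (q : ℤ) := Nat.prime_iff_prime_int.1 hq
    rcases hqp.dvd_or_dvd hd with hd | hd
    · rcases hqp.dvd_or_dvd hd with hd | hd
      · exact not_dvd_prime hq Nat.prime_two hq2 hd
      · exact not_dvd_s hq hP.cho.ss hd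
    · exact not_dvd_prime hq hrp hqr hd
  refine ⟨?_, ?_, ?_, ?_⟩
  · intro l i
    constructor
    · rw [expand hs0 hr0 ha0 hp0 (hA1 (p l) (hpp l)) i]
      have h1 : ¬ (p l : ℤ) ∣ 2 * s * r * a i := by
        intro hd
        rcases (Nat.prime_iff_prime_int.1 (hpp l)).dvd_or_dvd hd with hd | hd
        · exact hnd _ i (hpp l) (hp2 l) (hP.new.nr l) hd
        · exact hP.new.nd l i hd
      rw [(hV1 (p l) _ (hpp l) h1).1, zero_add, Finset.sum_eq_single l]
      · rw [(hV2 (p l) (hpp l)).1, mul_one]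
        rfl
      · intro l' _ hl'
        rw [(hV1 (p l) _ (hpp l) (not_dvd_prime (hpp l) (hpp l')
          fun h0 => hl' (hP.new.inj h0).symm)).1, mul_zero]
      · intro h0
        exact absurd (Finset.mem_univ l) h0
    · have hA := hA2 (p l) (hpp l) (hp2 l)
      rw [expand hs0 hr0 ha0 hp0 hA i]
      have h1 : ul (p l) (2 * s * r * a i) = 1 := by
        rw [hA.mul _ _ h2sr (ha0 i), hA.mul _ _ h2s hr', hA.mul _ _ two_ne_zero hs0,
          hP.new.ua l i, hP.new.u2 l, hP.new.ur' l]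
        have h2 : ul (p l) s = 0 := by
          rcases hP.cho.ss with h0 | h0
          · rw [h0]; exact hA.one
          · rw [h0]; exact hP.new.um l
        rw [h2]
        norm_num
      have h3 : ∑ l', cf bl m st i l' * ul (p l) (p l') = h * cf bl m st i l := by
        have h4 : ∑ l', cf bl m st i l' * ul (p l) (p l') + h * cf bl m st i l = 0 := by
          have h5 : ∑ l', cf bl m st i l' * ul (p l) (p l') + h * cf bl m st i l =
              ∑ l', h * cf bl m st i l' := by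
            rw [← Finset.add_sum_erase Finset.univ _ (Finset.mem_univ l),
              ← Finset.add_sum_erase Finset.univ (fun l' => h * cf bl m st i l')
                (Finset.mem_univ l), hV4 (p l) (hpp l) (hp2 l), mul_zero, zero_add, add_comm]
            congr 1
            refine Finset.sum_congr rfl fun l' hl' => ?_
            rw [hP.new.mu l l' (Finset.ne_of_mem_erase hl').symm, mul_comm]
          rw [h5, ← Finset.mul_sum, sum_cf hP.new i, mul_zero]
        exact (two_cast _ _).2 h4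
      rw [h1, h3]
      rfl
  · intro q hq i
    have hq' : q.Prime ∧ q ∣ (a 0 * a 1 * a 2).natAbs ∧ q ≠ 2 := by
      rcases Finset.mem_union.1 hq with h0 | h0
      · have h1 := Finset.mem_filter.1 h0
        exact ⟨Nat.prime_of_mem_primeFactors h1.1, Nat.dvd_of_mem_primeFactors h1.1, h1.2.1⟩
      · have h1 := Finset.mem_filter.1 h0
        exact ⟨Nat.prime_of_mem_primeFactors h1.1, Nat.dvd_of_mem_primeFactors h1.1, h1.2.1⟩
    obtain ⟨hqp, hqd, hq2⟩ := hq'
    have hqd' : ∃ j, (q : ℤ) ∣ a j := by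
      have h1 : (q : ℤ) ∣ a 0 * a 1 * a 2 := Int.natCast_dvd.2 hqd
      have hqi : Prime (q : ℤ) := Nat.prime_iff_prime_int.1 hqp
      rcases hqi.dvd_or_dvd h1 with h1 | h1
      · rcases hqi.dvd_or_dvd h1 with h1 | h1
        · exact ⟨0, h1⟩
        · exact ⟨1, h1⟩
      · exact ⟨2, h1⟩
    obtain ⟨j, hj⟩ := hqd'
    have hqr : q ≠ r := by
      intro h0
      rw [h0] at hj
      exact hP.cho.nd j hj
    have hql : ∀ l, q ≠ p l := by
      intro l h0
      rw [h0] at hj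
      exact hP.new.nd l j hj
    constructor
    · have hA := hA1 q hqp
      rw [expand hs0 hr0 ha0 hp0 hA i, hA.mul _ _ h2sr (ha0 i),
        (hV1 q _ hqp (hnd q i hqp hq2 hqr)).1, zero_add, Finset.sum_eq_zero, add_zero]
      intro l _
      rw [(hV1 q _ hqp (not_dvd_prime hqp (hpp l) (hql l))).1, mul_zero]
    · rw [expand hs0 hr0 ha0 hp0 (hA2 q hqp hq2) i, Finset.sum_eq_zero, add_zero]
      intro l _
      rw [hP.new.uo l q hq, mul_zero]
  · intro i
    have hKB : Kn s r st p * Bn a bl m p i = (2 * s * r * a i) *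
        ((∏ l, (p l : ℤ) ^ st l) * ∏ l, if bl l = i then (p l : ℤ) ^ m l else 1) := by
      unfold Kn Bn
      ring
    have hpl : ∀ l, (0 : ℤ) < p l := fun l => Int.natCast_pos.2 (hpp l).pos
    have h5 : 0 < (∏ l, (p l : ℤ) ^ st l) := Finset.prod_pos fun l _ => pow_pos (hpl l) _
    have h6 : 0 < (∏ l, if bl l = i then (p l : ℤ) ^ m l else 1) := by
      refine Finset.prod_pos fun l _ => ?_
      split_ifs
      · exact pow_pos (hpl l) _
      · exact one_pos
    refine ⟨?_, ?_, ?_, ?_⟩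
    · rw [expand hs0 hr0 ha0 hp0 hA4 i, Finset.sum_eq_zero, add_zero]
      intro l _
      have h7 := (hV5 (p l : ℤ) (by have := hm8 l; omega)).2
      rw [h7, if_neg (by rw [hm8 l]; norm_num), mul_zero]
    · rw [expand hs0 hr0 ha0 hp0 (hA1 2 Nat.prime_two) i, Finset.sum_eq_zero, add_zero]
      intro l _
      have h7 : ¬ ((2 : ℕ) : ℤ) ∣ (p l : ℤ) := not_dvd_prime Nat.prime_two (hpp l) (hp2 l).symm
      rw [(hV1 2 _ Nat.prime_two h7).1, mul_zero]
    · rw [hKB]
      exact mul_ne_zero (mul_ne_zero h2sr (ha0 i)) (mul_pos h5 h6).ne'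
    · rw [hKB]
      have h8 : (2 * s * r * a i) * ((∏ l, (p l : ℤ) ^ st l) *
          ∏ l, if bl l = i then (p l : ℤ) ^ m l else 1) * (s * a i) =
          2 * r * ((∏ l, (p l : ℤ) ^ st l) * ∏ l, if bl l = i then (p l : ℤ) ^ m l else 1) *
            (s * a i) ^ 2 := by ring
      rw [h8]
      have h9 : 0 < (s * a i) ^ 2 :=
        (sq_nonneg _).lt_of_ne' (pow_ne_zero 2 (mul_ne_zero hs0 (ha0 i)))
      have h10 : (0 : ℤ) < r := Int.natCast_pos.2 hrp.pos
      exact mul_pos (mul_pos (mul_pos two_pos h10) (mul_pos h5 h6)) h9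
  · have h1 : (∏ l, (p l : ℤ) ^ st l) % 8 = 1 :=
      prod_mod8 _ (fun l => pow_mod8 (hm8 l) _) _
    have h2 : (∏ l, if bl l = (1 : Fin 3) then (p l : ℤ) ^ m l else 1) % 8 = 1 := by
      refine prod_mod8 _ (fun l => ?_) _
      split_ifs
      · exact pow_mod8 (hm8 l) _
      · norm_num
    have h3 : ((∏ l, (p l : ℤ) ^ st l) *
        ∏ l, if bl l = (1 : Fin 3) then (p l : ℤ) ^ m l else 1) % 8 = 1 := by
      rw [Int.mul_emod, h1, h2]
      norm_num
    have hKB : Kn s r st p * Bn a bl m p 1 = (2 * s * r * a 1) *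
        ((∏ l, (p l : ℤ) ^ st l) * ∏ l, if bl l = (1 : Fin 3) then (p l : ℤ) ^ m l else 1) := by
      unfold Kn Bn
      ring
    rw [hKB]
    generalize ((∏ l, (p l : ℤ) ^ st l) *
        ∏ l, if bl l = (1 : Fin 3) then (p l : ℤ) ^ m l else 1) = P at h3 ⊢
    have h4 := hP.cho.m16
    obtain ⟨k, hk⟩ : ∃ k, P = 8 * k + 1 := ⟨P / 8, by omega⟩
    have h5 : 2 * s * r * a 1 * P = 2 * s * r * a 1 + 16 * (s * r * a 1 * k) := by
      rw [hk]
      ring
    rw [h5, Int.add_mul_emod_self_left]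
    exact h4

end

end Pool.Agent.GT.D.H87
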