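import Pool.Agent.GT.StmtsE

/-!
# Squad GT (MP_ba5221_nt), row E_STB: solubility of the 2-coverings is stable (compactness)
-/

set_option autoImplicit false

namespace Pool.Agent.GT.OF.H87

open Filter Topology

/-- elements close to `1` are squares -/
theorem near_one (q : ℕ) [Fact q.Prime] (u : ℚ_[q]) (h : ‖u - 1‖ < ‖(2 : ℚ_[q])‖ ^ 2) :
    ∃ v : ℚ_[q], v ^ 2 = u := by
  have h2 : ‖(2 : ℚ_[q])‖ ≤ 1 := by
    have := Padic.norm_int_le_one (p := q) 2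
    simpa using this
  have h1 : ‖u - 1‖ ≤ 1 := by
    have h3 : ‖(2 : ℚ_[q])‖ ^ 2 ≤ 1 := pow_le_one₀ (norm_nonneg _) h2
    linarith
  have hu : ‖u‖ ≤ 1 := by
    have h4 : u = (u - 1) + 1 := by ring
    rw [h4]
    refine (Padic.nonarchimedean _ _).trans (max_le h1 ?_)
    simp
  obtain ⟨uu, huu⟩ : ∃ uu : ℤ_[q], (uu : ℚ_[q]) = u := ⟨⟨u, hu⟩, rfl⟩
  let F : Polynomial ℤ_[q] := Polynomial.X ^ 2 - Polynomial.C uu
  have e1 : F.aeval (1 : ℤ_[q]) = 1 - uu := by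
    simp [F]
  have e2 : F.derivative.aeval (1 : ℤ_[q]) = 2 := by
    simp [F]
    norm_num
  have hn : ‖F.aeval (1 : ℤ_[q])‖ < ‖F.derivative.aeval (1 : ℤ_[q])‖ ^ 2 := by
    rw [e1, e2]
    have h5 : ‖1 - uu‖ = ‖u - 1‖ := by
      rw [← norm_neg, PadicInt.norm_def]
      congr 1
      push_cast
      rw [huu]
      ring
    have h6 : ‖(2 : ℤ_[q])‖ = ‖(2 : ℚ_[q])‖ := by
      rw [PadicInt.norm_def]
      congr 1
    rw [h5, h6]
    exact h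
  obtain ⟨z, hz, -⟩ := hensels_lemma hn
  refine ⟨(z : ℚ_[q]), ?_⟩
  have h7 : z ^ 2 - uu = 0 := by
    simpa [F] using hz
  have h8 : z ^ 2 = uu := sub_eq_zero.mp h7
  have h9 := congrArg (fun t : ℤ_[q] => (t : ℚ_[q])) h8
  rw [← huu]
  simpa using h9

/-- division by an even power of `q` -/
theorem red (q : ℕ) [hq : Fact q.Prime] (x : ℚ_[q]) (hx : x ≠ 0) :
    ∃ y c : ℚ_[q], c ≠ 0 ∧ x = y * c ^ 2 ∧ (q : ℝ)⁻¹ ≤ ‖y‖ ∧ ‖y‖ ≤ 1 := by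
  have hq0 : (q : ℚ_[q]) ≠ 0 := by
    exact_mod_cast hq.out.ne_zero
  have hq1 : (1 : ℝ) < q := by exact_mod_cast hq.out.one_lt
  have hqp : (0 : ℝ) < q := by linarith
  obtain ⟨m, r, hm, hr⟩ : ∃ m r : ℤ, x.valuation = 2 * m + r ∧ (r = 0 ∨ r = 1) :=
    ⟨x.valuation / 2, x.valuation % 2, by omega, by omega⟩
  have hc : ((q : ℚ_[q]) ^ m) ≠ 0 := zpow_ne_zero _ hq0
  refine ⟨x * (((q : ℚ_[q]) ^ m) ^ 2)⁻¹, (q : ℚ_[q]) ^ m, hc, ?_, ?_⟩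
  · rw [mul_assoc, inv_mul_cancel₀ (pow_ne_zero _ hc), mul_one]
  · have hn : ‖x * (((q : ℚ_[q]) ^ m) ^ 2)⁻¹‖ = (q : ℝ) ^ (-r) := by
      rw [norm_mul, norm_inv, norm_pow, Padic.norm_p_zpow, Padic.norm_eq_zpow_neg_valuation hx, hm,
        ← zpow_natCast, ← zpow_mul, ← zpow_neg, ← zpow_add₀ hqp.ne']
      congr 1
      push_cast
      ring
    rw [hn]
    rcases hr with rfl | rfl
    · simp only [neg_zero, zpow_zero]
      exact ⟨inv_le_one_of_one_le₀ hq1.le, le_refl _⟩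
    · rw [zpow_neg_one]
      exact ⟨le_refl _, inv_le_one_of_one_le₀ hq1.le⟩

/-- normalisation of a nonzero vector -/
theorem nrm (q : ℕ) [Fact q.Prime] (z : Fin 3 → ℚ_[q]) (w : ℚ_[q]) (h : ¬ (z = 0 ∧ w = 0)) :
    ∃ l : ℚ_[q], ‖((l • z, l * w) : (Fin 3 → ℚ_[q]) × ℚ_[q])‖ = 1 := by
  have hne : ((z, w) : (Fin 3 → ℚ_[q]) × ℚ_[q]) ≠ 0 := by
    intro h0
    exact h (Prod.mk.inj h0)
  obtain ⟨a, ha⟩ : ∃ a : ℚ_[q], ‖((z, w) : (Fin 3 → ℚ_[q]) × ℚ_[q])‖ = ‖a‖ := by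
    rw [Prod.norm_def]
    rcases max_choice ‖(z, w).1‖ ‖(z, w).2‖ with h1 | h1
    · rw [h1]
      by_cases h0 : ‖z‖ = 0
      · exact ⟨0, by simpa using h0⟩
      · by_contra hcon
        push Not at hcon
        have hpos : 0 < ‖z‖ := lt_of_le_of_ne (norm_nonneg _) (Ne.symm h0)
        exact lt_irrefl _ ((pi_norm_lt_iff hpos).2
          fun i => lt_of_le_of_ne (norm_le_pi_norm z i) (Ne.symm (hcon (z i))))
    · exact ⟨w, h1⟩
  have ha0 : ‖a‖ ≠ 0 := by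
    rw [← ha]
    exact norm_ne_zero_iff.mpr hne
  refine ⟨a⁻¹, ?_⟩
  have : ((a⁻¹ • z, a⁻¹ * w) : (Fin 3 → ℚ_[q]) × ℚ_[q]) = a⁻¹ • (z, w) := rfl
  rw [this, norm_smul, ha, norm_inv, inv_mul_cancel₀ ha0]

/-- the normalised form of a solution -/
theorem normal (q : ℕ) [Fact q.Prime] (D d : Fin 3 → ℤ) (hd : ∀ i, d i ≠ 0)
    (h : Cov ℚ_[q] D d) :
    ∃ (y c z : Fin 3 → ℚ_[q]) (w : ℚ_[q]), (∀ i, c i ≠ 0) ∧
      (∀ i, (d i : ℚ_[q]) = y i * c i ^ 2) ∧ (∀ i, (q : ℝ)⁻¹ ≤ ‖y i‖ ∧ ‖y i‖ ≤ 1) ∧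
      ‖((z, w) : (Fin 3 → ℚ_[q]) × ℚ_[q])‖ = 1 ∧
      ∀ i : Fin 3, y (i + 1) * z (i + 1) ^ 2 - y (i + 2) * z (i + 2) ^ 2 =
        -(D i : ℚ_[q]) * w ^ 2 := by
  obtain ⟨z, w, hne, heq⟩ := h
  have hred : ∀ i, ∃ yc : ℚ_[q] × ℚ_[q], yc.2 ≠ 0 ∧ (d i : ℚ_[q]) = yc.1 * yc.2 ^ 2 ∧
      (q : ℝ)⁻¹ ≤ ‖yc.1‖ ∧ ‖yc.1‖ ≤ 1 := by
    intro i
    obtain ⟨y, c, h1, h2, h3, h4⟩ := red q (d i : ℚ_[q]) (by exact_mod_cast hd i)
    exact ⟨(y, c), h1, h2, h3, h4⟩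
  choose yc h1 h2 h3 h4 using hred
  have hne' : ¬ ((fun i => (yc i).2 * z i) = 0 ∧ w = 0) := by
    rintro ⟨h5, h6⟩
    refine hne ⟨?_, h6⟩
    funext i
    have := congrFun h5 i
    simp only [Pi.zero_apply, mul_eq_zero] at this
    rcases this with h7 | h7
    · exact absurd h7 (h1 i)
    · exact h7
  obtain ⟨l, hl⟩ := nrm q (fun i => (yc i).2 * z i) w hne'
  refine ⟨fun i => (yc i).1, fun i => (yc i).2, l • (fun i => (yc i).2 * z i), l * w, h1, h2,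
    fun i => ⟨h3 i, h4 i⟩, hl, ?_⟩
  intro i
  have h8 := heq i
  rw [h2 (i + 1), h2 (i + 2)] at h8
  simp only [Pi.smul_apply, smul_eq_mul]
  linear_combination l ^ 2 * h8

theorem e_stb : StbStmt := by
  intro q hq P
  by_contra hcon
  push Not at hcon
  choose D hD d hd hcov hnot using hcon
  have hn : ∀ n, ∃ t : (Fin 3 → ℚ_[q]) × (Fin 3 → ℚ_[q]) × (Fin 3 → ℚ_[q]) × ℚ_[q],
      (∀ i, t.2.1 i ≠ 0) ∧ (∀ i, (d n i : ℚ_[q]) = t.1 i * t.2.1 i ^ 2) ∧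
      (∀ i, (q : ℝ)⁻¹ ≤ ‖t.1 i‖ ∧ ‖t.1 i‖ ≤ 1) ∧
      ‖(t.2.2 : (Fin 3 → ℚ_[q]) × ℚ_[q])‖ = 1 ∧
      ∀ i : Fin 3, t.1 (i + 1) * t.2.2.1 (i + 1) ^ 2 - t.1 (i + 2) * t.2.2.1 (i + 2) ^ 2 =
        -(D n i : ℚ_[q]) * t.2.2.2 ^ 2 := by
    intro n
    obtain ⟨y, c, z, w, g1, g2, g3, g4, g5⟩ := normal q (D n) (d n) (hd n) (hcov n)
    exact ⟨(y, c, z, w), g1, g2, g3, g4, g5⟩
  choose t g1 g2 g3 g4 g5 using hn
  have hq1 : (1 : ℝ) < q := by exact_mod_cast hq.out.one_lt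
  have hqp : (0 : ℝ) < q := by linarith
  -- compactness
  have hball : ∀ n, ((t n).1, (t n).2.2) ∈
      Metric.closedBall (0 : (Fin 3 → ℚ_[q]) × (Fin 3 → ℚ_[q]) × ℚ_[q]) 1 := by
    intro n
    rw [mem_closedBall_zero_iff, Prod.norm_def]
    refine max_le ?_ (g4 n).le
    exact (pi_norm_le_iff_of_nonneg zero_le_one).2 fun i => (g3 n i).2
  obtain ⟨a, -, φ, hφ, hlim⟩ := (isCompact_closedBall
    (0 : (Fin 3 → ℚ_[q]) × (Fin 3 → ℚ_[q]) × ℚ_[q]) 1).tendsto_subseq hball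
  obtain ⟨y, z, w⟩ := a
  have L1 : Tendsto (fun n => (t (φ n)).1) atTop (𝓝 y) := by
    have := (continuous_fst.tendsto _).comp hlim
    exact this
  have L2 : Tendsto (fun n => (t (φ n)).2.2) atTop (𝓝 (z, w)) := by
    have := (continuous_snd.tendsto _).comp hlim
    exact this
  have L3 : Tendsto (fun n => (t (φ n)).2.2.1) atTop (𝓝 z) := by
    have := (continuous_fst.tendsto _).comp L2
    exact this
  have L4 : Tendsto (fun n => (t (φ n)).2.2.2) atTop (𝓝 w) := by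
    have := (continuous_snd.tendsto _).comp L2
    exact this
  have L1i : ∀ i, Tendsto (fun n => (t (φ n)).1 i) atTop (𝓝 (y i)) :=
    fun i => (tendsto_pi_nhds.1 L1) i
  have L3i : ∀ i, Tendsto (fun n => (t (φ n)).2.2.1 i) atTop (𝓝 (z i)) :=
    fun i => (tendsto_pi_nhds.1 L3) i
  -- the limits of the differences of the roots
  have LD : ∀ i, Tendsto (fun n => (D (φ n) i : ℚ_[q])) atTop (𝓝 (P i : ℚ_[q])) := by
    intro i
    rw [tendsto_iff_norm_sub_tendsto_zero]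
    refine squeeze_zero (fun n => norm_nonneg _) (g := fun n => ((q : ℝ)⁻¹) ^ (φ n)) ?_ ?_
    · intro n
      have h1 := (Padic.norm_int_le_pow_iff_dvd (p := q) (D (φ n) i - P i) (φ n)).2 (hD (φ n) i)
      rw [zpow_neg, zpow_natCast, ← inv_pow] at h1
      simpa using h1
    · exact (tendsto_pow_atTop_nhds_zero_of_lt_one (inv_nonneg.2 hqp.le)
        (inv_lt_one_of_one_lt₀ hq1)).comp hφ.tendsto_atTop
  have hy : ∀ i, y i ≠ 0 := by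
    intro i h0
    have h1 : (q : ℝ)⁻¹ ≤ ‖y i‖ :=
      ge_of_tendsto' ((L1i i).norm) fun n => (g3 (φ n) i).1
    rw [h0, norm_zero] at h1
    exact absurd (inv_pos.2 hqp) (not_lt.2 h1)
  have hzw : ¬ (z = 0 ∧ w = 0) := by
    rintro ⟨rfl, rfl⟩
    have h1 : ‖((0, 0) : (Fin 3 → ℚ_[q]) × ℚ_[q])‖ = 1 := by
      refine tendsto_nhds_unique L2.norm ?_
      simp only [g4]
      exact tendsto_const_nhds
    have h2 : ((0, 0) : (Fin 3 → ℚ_[q]) × ℚ_[q]) = 0 := rfl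
    rw [h2, norm_zero] at h1
    exact zero_ne_one h1
  have heq : ∀ i : Fin 3, y (i + 1) * z (i + 1) ^ 2 - y (i + 2) * z (i + 2) ^ 2 =
      -(P i : ℚ_[q]) * w ^ 2 := by
    intro i
    have l1 := ((L1i (i + 1)).mul ((L3i (i + 1)).pow 2)).sub
      ((L1i (i + 2)).mul ((L3i (i + 2)).pow 2))
    have l2 := ((LD i).neg).mul (L4.pow 2)
    refine tendsto_nhds_unique l1 (l2.congr fun n => ?_)
    exact (g5 (φ n) i).symm
  -- the quotients are squares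
  have h2q : (0 : ℝ) < ‖(2 : ℚ_[q])‖ ^ 2 := by
    refine pow_pos (norm_pos_iff.2 ?_) 2
    exact two_ne_zero
  have hev : ∀ i, ∀ᶠ n in atTop, ‖(t (φ n)).1 i / y i - 1‖ < ‖(2 : ℚ_[q])‖ ^ 2 := by
    intro i
    have l1 : Tendsto (fun n => ‖(t (φ n)).1 i / y i - 1‖) atTop (𝓝 0) := by
      have l2 := (((L1i i).div_const (y i)).sub_const 1).norm
      rw [div_self (hy i), sub_self, norm_zero] at l2
      exact l2
    exact l1.eventually (gt_mem_nhds h2q)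
  obtain ⟨n, hn⟩ := (eventually_all.2 hev).exists
  have hs : ∀ i, ∃ v : ℚ_[q], v ^ 2 = (t (φ n)).1 i / y i := fun i => near_one q _ (hn i)
  choose v hv using hs
  have hy1 : ∀ i, (t (φ n)).1 i = y i * v i ^ 2 := by
    intro i
    rw [hv i, mul_div_cancel₀ _ (hy i)]
  have ht0 : ∀ i, (t (φ n)).1 i ≠ 0 := by
    intro i h0
    have h1 := (g3 (φ n) i).1
    rw [h0, norm_zero] at h1
    exact absurd (inv_pos.2 hqp) (not_lt.2 h1)
  have hv0 : ∀ i, v i ≠ 0 := by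
    intro i h0
    apply ht0 i
    rw [hy1 i, h0]
    ring
  refine hnot (φ n) ⟨fun i => z i / (v i * (t (φ n)).2.1 i), w, ?_, ?_⟩
  · rintro ⟨h1, h2⟩
    refine hzw ⟨?_, h2⟩
    funext i
    have h3 := congrFun h1 i
    simp only [Pi.zero_apply, div_eq_zero_iff, mul_eq_zero] at h3
    rcases h3 with h4 | h4 | h4
    · exact h4
    · exact absurd h4 (hv0 i)
    · exact absurd h4 (g1 (φ n) i)
  · intro i
    have hk : ∀ j, (d (φ n) j : ℚ_[q]) * (z j / (v j * (t (φ n)).2.1 j)) ^ 2 = y j * z j ^ 2 := by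
      intro j
      rw [g2 (φ n) j, hy1 j]
      have := hv0 j
      have := g1 (φ n) j
      field_simp
    rw [hk, hk]
    exact heq i

end Pool.Agent.GT.OF.H87
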