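import Pool.Agent.GT.StmtsA

/-!
Row A_SZE of table `gt` (MP_ba5221_nt): Szemerédi's theorem with a count from the density
Hales-Jewett theorem.
-/

open Finset

namespace Pool.Agent.GT.H87

open Pool.Agent.GT

variable {N : ℕ} [NeZero N]

/-- the affine map -/
def phi {n K : ℕ} (a : ZMod N) (b : Fin n → ZMod N) (x : Fin n → Fin K) : ZMod N :=
  a + ∑ i, b i * (((x i : Fin K) : ℕ) : ZMod N)

/-- the first term of the progression of a line -/
def aa {n K : ℕ} (w : Fin n → Option (Fin K)) (a : ZMod N) (b : Fin n → ZMod N) : ZMod N :=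
  a + ∑ i, b i * (((w i).elim 0 (fun c => (c : ℕ)) : ℕ) : ZMod N)

/-- the difference of the progression of a line -/
def dd {n K : ℕ} (w : Fin n → Option (Fin K)) (b : Fin n → ZMod N) : ZMod N :=
  ∑ i, b i * (if (w i).isNone then 1 else 0)

theorem phi_lp {n K : ℕ} (w : Fin n → Option (Fin K)) (a : ZMod N) (b : Fin n → ZMod N)
    (j : Fin K) :
    phi a b (lp w j) = aa w a b + ((j : ℕ) : ZMod N) * dd w b := by
  unfold phi aa dd
  rw [add_assoc, Finset.mul_sum, ← Finset.sum_add_distrib]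
  congr 1
  refine Finset.sum_congr rfl fun i _ => ?_
  unfold lp
  cases h : w i with
  | none => simp [mul_comm]
  | some c => simp

theorem count_line {n K : ℕ} (w : Fin (n + 1) → Option (Fin K)) (hw : IsLine w)
    (M : Finset (ZMod N × ZMod N)) :
    (univ.filter fun p : ZMod N × (Fin (n + 1) → ZMod N) => (aa w p.1 p.2, dd w p.2) ∈ M).card ≤
      M.card * N ^ n := by
  classical
  obtain ⟨i₀, hi₀⟩ := hw
  have hcard : (M ×ˢ (univ : Finset (Fin n → ZMod N))).card = M.card * N ^ n := by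
    rw [Finset.card_product, Finset.card_univ, Fintype.card_fun, ZMod.card, Fintype.card_fin]
  rw [← hcard]
  refine Finset.card_le_card_of_injOn
    (fun p => ((aa w p.1 p.2, dd w p.2), fun j => p.2 (i₀.succAbove j))) ?_ ?_
  · intro p hp
    have hp' := (Finset.mem_filter.1 (Finset.mem_coe.1 hp)).2
    exact Finset.mem_coe.2 (Finset.mem_product.2 ⟨hp', Finset.mem_univ _⟩)
  · rintro ⟨a, b⟩ - ⟨a', b'⟩ - h
    simp only [Prod.mk.injEq] at h
    obtain ⟨⟨h1, h2⟩, h3⟩ := h
    have h3' : ∀ j, b (i₀.succAbove j) = b' (i₀.succAbove j) := fun j => congrFun h3 j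
    have h4 : b i₀ = b' i₀ := by
      unfold dd at h2
      rw [Fin.sum_univ_succAbove _ i₀, Fin.sum_univ_succAbove _ i₀, hi₀] at h2
      have h5 : ∑ i, b (i₀.succAbove i) * (if (w (i₀.succAbove i)).isNone then 1 else 0) =
          ∑ i, b' (i₀.succAbove i) * (if (w (i₀.succAbove i)).isNone then 1 else 0) :=
        Finset.sum_congr rfl fun i _ => by rw [h3' i]
      rw [h5] at h2
      have h6 := add_right_cancel h2
      simpa using h6
    have h7 : b = b' := by
      funext i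
      rcases Fin.eq_self_or_eq_succAbove i₀ i with h | ⟨j, h⟩
      · rw [h]; exact h4
      · rw [h]; exact h3' j
    subst h7
    have h8 : a = a' := add_right_cancel h1
    rw [h8]

theorem sum_T {n K : ℕ} (A : Finset (ZMod N)) :
    ∑ p : ZMod N × (Fin n → ZMod N),
      (univ.filter fun x : Fin n → Fin K => phi p.1 p.2 x ∈ A).card = K ^ n * (N ^ n * A.card) := by
  have h1 : ∀ (b : Fin n → ZMod N) (x : Fin n → Fin K),
      ∑ a : ZMod N, (if phi a b x ∈ A then 1 else 0) = A.card := by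
    intro b x
    unfold phi
    rw [Fintype.sum_equiv (Equiv.addRight (∑ i, b i * (((x i : Fin K) : ℕ) : ZMod N)))
      (fun a => if a + ∑ i, b i * (((x i : Fin K) : ℕ) : ZMod N) ∈ A then 1 else 0)
      (fun y => if y ∈ A then 1 else 0) (fun a => rfl)]
    simp
  calc ∑ p : ZMod N × (Fin n → ZMod N),
        (univ.filter fun x : Fin n → Fin K => phi p.1 p.2 x ∈ A).card
      = ∑ p : ZMod N × (Fin n → ZMod N), ∑ x : Fin n → Fin K,
          (if phi p.1 p.2 x ∈ A then 1 else 0) :=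
        Finset.sum_congr rfl fun p _ => Finset.card_filter _ _
    _ = ∑ x : Fin n → Fin K, ∑ p : ZMod N × (Fin n → ZMod N),
          (if phi p.1 p.2 x ∈ A then 1 else 0) := Finset.sum_comm
    _ = ∑ x : Fin n → Fin K, ∑ b : Fin n → ZMod N, ∑ a : ZMod N,
          (if phi a b x ∈ A then 1 else 0) :=
        Finset.sum_congr rfl fun x _ => Fintype.sum_prod_type_right _
    _ = ∑ x : Fin n → Fin K, ∑ b : Fin n → ZMod N, A.card :=
        Finset.sum_congr rfl fun x _ => Finset.sum_congr rfl fun b _ => h1 b x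
    _ = K ^ n * (N ^ n * A.card) := by
        simp [ZMod.card]

theorem count {n K : ℕ} (hK : 0 < K) (A : Finset (ZMod N)) {α : ℝ}
    (hA : α * N ≤ A.card)
    (hDH : ∀ T : Finset (Fin (n + 1) → Fin K), α / 2 * (K : ℝ) ^ (n + 1) ≤ T.card →
      ∃ w : Fin (n + 1) → Option (Fin K), IsLine w ∧ ∀ a, lp w a ∈ T) :
    α / 2 * (N : ℝ) ^ 2 ≤ ((K : ℝ) + 1) ^ (n + 1) *
      (univ.filter fun q : ZMod N × ZMod N =>
        ∀ j : Fin K, q.1 + ((j : ℕ) : ZMod N) * q.2 ∈ A).card := by
  classical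
  obtain ⟨M, hM⟩ : ∃ M : Finset (ZMod N × ZMod N), M = univ.filter fun q : ZMod N × ZMod N =>
        ∀ j : Fin K, q.1 + ((j : ℕ) : ZMod N) * q.2 ∈ A := ⟨_, rfl⟩
  rw [← hM]
  have hN : (0 : ℝ) < N := Nat.cast_pos.2 (NeZero.pos N)
  have hKr : (0 : ℝ) < K := Nat.cast_pos.2 hK
  obtain ⟨T, hT⟩ : ∃ T : ZMod N × (Fin (n + 1) → ZMod N) → Finset (Fin (n + 1) → Fin K),
      T = fun p => univ.filter fun x : Fin (n + 1) → Fin K => phi p.1 p.2 x ∈ A := ⟨_, rfl⟩
  obtain ⟨G, hG⟩ : ∃ G : Finset (ZMod N × (Fin (n + 1) → ZMod N)),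
      G = univ.filter fun p => α / 2 * (K : ℝ) ^ (n + 1) ≤ ((T p).card : ℝ) := ⟨_, rfl⟩
  -- the sum of the sizes
  have h1 : (∑ p, ((T p).card : ℝ)) = (K : ℝ) ^ (n + 1) * ((N : ℝ) ^ (n + 1) * A.card) := by
    have := sum_T (n := n + 1) (K := K) A
    rw [hT]
    exact_mod_cast this
  have hcardp : ((univ : Finset (ZMod N × (Fin (n + 1) → ZMod N))).card : ℝ) =
      (N : ℝ) ^ (n + 2) := by
    rw [Finset.card_univ, Fintype.card_prod, Fintype.card_fun, ZMod.card, Fintype.card_fin]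
    push_cast
    ring
  have hTle : ∀ p, ((T p).card : ℝ) ≤ (K : ℝ) ^ (n + 1) := by
    intro p
    have h := Finset.card_le_univ (T p)
    rw [Fintype.card_fun, Fintype.card_fin, Fintype.card_fin] at h
    exact_mod_cast h
  have h2 : (∑ p, ((T p).card : ℝ)) ≤
      G.card * (K : ℝ) ^ (n + 1) + (N : ℝ) ^ (n + 2) * (α / 2 * (K : ℝ) ^ (n + 1)) ∨ α < 0 := by
    rcases lt_or_ge α 0 with h | hα
    · exact Or.inr h
    left
    have h3 : ∀ p, ((T p).card : ℝ) ≤
        (if p ∈ G then (K : ℝ) ^ (n + 1) else 0) + α / 2 * (K : ℝ) ^ (n + 1) := by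
      intro p
      by_cases hp : p ∈ G
      · rw [if_pos hp]
        have : 0 ≤ α / 2 * (K : ℝ) ^ (n + 1) := by positivity
        linarith [hTle p]
      · rw [if_neg hp, zero_add]
        rw [hG, Finset.mem_filter, not_and] at hp
        exact (not_le.1 (hp (Finset.mem_univ p))).le
    calc (∑ p, ((T p).card : ℝ)) ≤
        ∑ p, ((if p ∈ G then (K : ℝ) ^ (n + 1) else 0) + α / 2 * (K : ℝ) ^ (n + 1)) :=
          Finset.sum_le_sum fun p _ => h3 p
      _ = G.card * (K : ℝ) ^ (n + 1) + (N : ℝ) ^ (n + 2) * (α / 2 * (K : ℝ) ^ (n + 1)) := by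
          rw [Finset.sum_add_distrib, Finset.sum_ite_mem, Finset.univ_inter, Finset.sum_const,
            Finset.sum_const, nsmul_eq_mul, nsmul_eq_mul, hcardp]
  -- the good pairs give lines
  have h4 : (G.card : ℝ) ≤ ((K : ℝ) + 1) ^ (n + 1) * (M.card * (N : ℝ) ^ n) := by
    have hsub : G ⊆ (univ.filter fun w : Fin (n + 1) → Option (Fin K) => IsLine w).biUnion
        fun w => univ.filter fun p : ZMod N × (Fin (n + 1) → ZMod N) =>
          (aa w p.1 p.2, dd w p.2) ∈ M := by
      intro p hp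
      rw [hG, Finset.mem_filter] at hp
      obtain ⟨w, hw, hwT⟩ := hDH (T p) hp.2
      rw [Finset.mem_biUnion]
      refine ⟨w, Finset.mem_filter.2 ⟨Finset.mem_univ _, hw⟩,
        Finset.mem_filter.2 ⟨Finset.mem_univ _, ?_⟩⟩
      rw [hM, Finset.mem_filter]
      refine ⟨Finset.mem_univ _, fun j => ?_⟩
      have h5 := hwT j
      rw [hT, Finset.mem_filter] at h5
      have h6 := h5.2
      rw [phi_lp] at h6
      exact h6
    have h5 : G.card ≤ (K + 1) ^ (n + 1) * (M.card * N ^ n) := by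
      calc G.card ≤ _ := Finset.card_le_card hsub
        _ ≤ ∑ w ∈ univ.filter fun w : Fin (n + 1) → Option (Fin K) => IsLine w,
            (univ.filter fun p : ZMod N × (Fin (n + 1) → ZMod N) =>
              (aa w p.1 p.2, dd w p.2) ∈ M).card := Finset.card_biUnion_le
        _ ≤ ∑ w ∈ univ.filter fun w : Fin (n + 1) → Option (Fin K) => IsLine w,
            M.card * N ^ n := Finset.sum_le_sum fun w hw =>
              count_line w (Finset.mem_filter.1 hw).2 M
        _ = (univ.filter fun w : Fin (n + 1) → Option (Fin K) => IsLine w).card *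
            (M.card * N ^ n) := by rw [Finset.sum_const, smul_eq_mul]
        _ ≤ (K + 1) ^ (n + 1) * (M.card * N ^ n) := by
            refine Nat.mul_le_mul_right _ ((Finset.card_filter_le _ _).trans ?_)
            rw [Finset.card_univ, Fintype.card_fun, Fintype.card_option, Fintype.card_fin,
              Fintype.card_fin]
    exact_mod_cast h5
  rcases h2 with h2 | h2
  · rw [h1] at h2
    have hKp : 0 < (K : ℝ) ^ (n + 1) := pow_pos hKr _
    have hNp : 0 < (N : ℝ) ^ n := pow_pos hN _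
    have h6 : (N : ℝ) ^ (n + 1) * A.card ≤ G.card + (N : ℝ) ^ (n + 2) * (α / 2) := by
      refine le_of_mul_le_mul_left ?_ hKp
      calc (K : ℝ) ^ (n + 1) * ((N : ℝ) ^ (n + 1) * A.card) ≤ _ := h2
        _ = _ := by ring
    have h7 : (N : ℝ) ^ (n + 1) * (α * N) ≤ (N : ℝ) ^ (n + 1) * A.card :=
      mul_le_mul_of_nonneg_left hA (by positivity)
    have h8 : (N : ℝ) ^ n * (α / 2 * (N : ℝ) ^ 2) ≤
        (N : ℝ) ^ n * (((K : ℝ) + 1) ^ (n + 1) * M.card) := by
      have e1 : (N : ℝ) ^ (n + 1) * (α * N) = 2 * ((N : ℝ) ^ n * (α / 2 * (N : ℝ) ^ 2)) := by ring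
      have e2 : (N : ℝ) ^ (n + 2) * (α / 2) = (N : ℝ) ^ n * (α / 2 * (N : ℝ) ^ 2) := by ring
      have e3 : ((K : ℝ) + 1) ^ (n + 1) * (M.card * (N : ℝ) ^ n) =
        (N : ℝ) ^ n * (((K : ℝ) + 1) ^ (n + 1) * M.card) := by ring
      rw [← e3]
      rw [e1] at h7
      rw [e2] at h6
      linarith only [h6, h7, h4]
    exact le_of_mul_le_mul_left h8 hNp
  · have h6 : α / 2 * (N : ℝ) ^ 2 ≤ 0 := by
      have : 0 < (N : ℝ) ^ 2 := by positivity
      nlinarith only [this, h2]
    exact h6.trans (by positivity)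

theorem a_sze : SzeRowStmt := by
  classical
  intro hdhj K δ hδ
  rcases Nat.eq_zero_or_pos K with rfl | hK
  · refine ⟨1, one_pos, ?_⟩
    intro N _ f _ _ _
    simp only [Finset.range_zero, Finset.prod_empty, Finset.sum_const, Finset.card_univ,
      ZMod.card, nsmul_eq_mul, mul_one, one_mul]
    rw [sq]
  · obtain ⟨n, hn⟩ := hdhj K hK (δ / 4) (by positivity)
    refine ⟨δ / 4 / ((K : ℝ) + 1) ^ (n + 1) * (δ / 2) ^ K, by positivity, ?_⟩
    intro N _ f hf0 hf1 hsum
    obtain ⟨A, hA⟩ : ∃ A : Finset (ZMod N), A = univ.filter fun x => δ / 2 ≤ f x := ⟨_, rfl⟩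
    have hAc : δ / 2 * (N : ℝ) ≤ A.card := by
      have h1 : ∑ x, f x ≤ ∑ x, ((if x ∈ A then (1 : ℝ) else 0) + δ / 2) := by
        refine Finset.sum_le_sum fun x _ => ?_
        by_cases hx : x ∈ A
        · rw [if_pos hx]
          linarith [hf1 x]
        · rw [if_neg hx, zero_add]
          rw [hA, Finset.mem_filter, not_and] at hx
          exact (not_le.1 (hx (Finset.mem_univ x))).le
      rw [Finset.sum_add_distrib, Finset.sum_ite_mem, Finset.univ_inter, Finset.sum_const,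
        Finset.sum_const, nsmul_eq_mul, nsmul_eq_mul, mul_one, Finset.card_univ, ZMod.card] at h1
      linarith only [h1, hsum]
    have hc := count (n := n) hK A hAc (fun T hT => hn (Fin (n + 1)) (by simp) T (by
      rw [Fintype.card_fin]
      have e : δ / 2 / 2 = δ / 4 := by ring
      rwa [e] at hT))
    obtain ⟨M, hM⟩ : ∃ M : Finset (ZMod N × ZMod N), M = univ.filter fun q : ZMod N × ZMod N =>
        ∀ j : Fin K, q.1 + ((j : ℕ) : ZMod N) * q.2 ∈ A := ⟨_, rfl⟩
    rw [← hM] at hc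
    have h2 : (M.card : ℝ) * (δ / 2) ^ K ≤
        ∑ q : ZMod N × ZMod N, ∏ j ∈ Finset.range K, f (q.1 + (j : ZMod N) * q.2) := by
      calc (M.card : ℝ) * (δ / 2) ^ K = ∑ q ∈ M, (δ / 2) ^ K := by
            rw [Finset.sum_const, nsmul_eq_mul]
        _ ≤ ∑ q ∈ M, ∏ j ∈ Finset.range K, f (q.1 + (j : ZMod N) * q.2) := by
            refine Finset.sum_le_sum fun q hq => ?_
            have h3 : (δ / 2) ^ K = ∏ _j ∈ Finset.range K, (δ / 2) := by
              rw [Finset.prod_const, Finset.card_range]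
            rw [h3]
            refine Finset.prod_le_prod (fun _ _ => by positivity) fun j hj => ?_
            rw [hM, Finset.mem_filter] at hq
            have h4 := hq.2 ⟨j, Finset.mem_range.1 hj⟩
            rw [hA, Finset.mem_filter] at h4
            exact h4.2
        _ ≤ ∑ q : ZMod N × ZMod N, ∏ j ∈ Finset.range K, f (q.1 + (j : ZMod N) * q.2) :=
            Finset.sum_le_sum_of_subset_of_nonneg (Finset.subset_univ _)
              fun q _ _ => Finset.prod_nonneg fun _ _ => hf0 _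
    rw [Fintype.sum_prod_type] at h2
    refine le_trans ?_ h2
    have hP : 0 < ((K : ℝ) + 1) ^ (n + 1) := by positivity
    have h5 : δ / 4 / ((K : ℝ) + 1) ^ (n + 1) * (N : ℝ) ^ 2 ≤ M.card := by
      rw [div_mul_eq_mul_div, div_le_iff₀ hP]
      calc δ / 4 * (N : ℝ) ^ 2 = δ / 2 / 2 * (N : ℝ) ^ 2 := by ring
        _ ≤ ((K : ℝ) + 1) ^ (n + 1) * M.card := hc
        _ = _ := by ring
    calc δ / 4 / ((K : ℝ) + 1) ^ (n + 1) * (δ / 2) ^ K * (N : ℝ) ^ 2
        = δ / 4 / ((K : ℝ) + 1) ^ (n + 1) * (N : ℝ) ^ 2 * (δ / 2) ^ K := by ring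
      _ ≤ M.card * (δ / 2) ^ K := mul_le_mul_of_nonneg_right h5 (by positivity)

end Pool.Agent.GT.H87
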